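import Pool.Agent.MP_2033ac_nt.AA.All

/-! The prime number theorem in almost all intervals of length at least `X ^ (1 / 8 + ε)`. -/

theorem Pool.Agent.Results.MP_2033ac_nt.AlmostAllShort.result :
    ∀ ε : ℝ, 0 < ε → ∃ δ : ℝ, 0 < δ ∧ ∀ A : ℕ, ∃ N : ℕ, ∀ X : ℕ, N ≤ X →
      ∃ E : Finset ℕ, (E.card : ℝ) ≤ (X : ℝ) ^ (1 - δ) ∧ ∀ x h : ℕ, X ≤ x → x ≤ 2 * X → x ∉ E →
        (X : ℝ) ^ (1 / 8 + ε) ≤ (h : ℝ) → h ≤ X →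
          |(((Finset.Ioc x (x + h)).filter Nat.Prime).card : ℝ) -
            ∫ t in (x : ℝ)..(x + h : ℝ), 1 / Real.log t| ≤ (h : ℝ) / Real.log X ^ A :=
  Pool.Agent.MP_2033ac_nt.AA.main3_all
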