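import Pool.Agent.MP_2033ac_nt.Mg.Main

namespace Pool.Agent.Results.MP_2033ac_nt.CharTwoGaps

open Polynomial

theorem result (F : Type*) [Field F] [Fintype F] [CharP F 2] (M : ℕ) :
    ∃ (d : ℕ) (h : F[X]), M ≤ d ∧ h.Monic ∧
      (Fintype.card F - 1) ^ 2 * (d + 1 + h.natDegree) ^ 2 ≤ 16 * Fintype.card F ^ (d + 1) ∧
      ∀ g : F[X], g.degree = (d : WithBot ℕ) → ¬ Irreducible (X ^ (d + 1) * h + g) :=
  Pool.Agent.MP_2033ac_nt.main M

end Pool.Agent.Results.MP_2033ac_nt.CharTwoGaps
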