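import Pool.Agent.MP_2033ac_nt.PN.All

/-! The prime number theorem in intervals of length `x ^ (9 / 16 + ε)`. -/

theorem Pool.Agent.Results.MP_2033ac_nt.PrimesShort.result :
    ∀ ε : ℝ, 0 < ε → ∀ A : ℕ, ∃ N : ℕ, ∀ x h : ℕ, N ≤ x →
      (x : ℝ) ^ (9 / 16 + ε) ≤ (h : ℝ) → h ≤ x →
        |(((Finset.Ioc x (x + h)).filter Nat.Prime).card : ℝ) -
          ∫ t in (x : ℝ)..(x + h : ℝ), 1 / Real.log t| ≤ (h : ℝ) / Real.log x ^ A :=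
  Pool.Agent.MP_2033ac_nt.PN.main_all
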