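import Pool.Agent.MP_2033ac_nt.SI.P4

namespace Pool.Agent.Results.MP_2033ac_nt.ShortIntervals

open Polynomial

theorem result : ∃ δ : ℝ, 0 < δ ∧ ∀ (F : Type) [Field F] [Finite F] [CharP F 2], ∃ N₀ : ℕ,
    ∀ N h : ℕ, N₀ ≤ N → (1 / 2 - δ) * N ≤ h → h ≤ N → ∀ f₀ : F[X], f₀.Monic → f₀.natDegree = N →
      |(N : ℝ) * ({f : F[X] | Irreducible f ∧ (f - f₀).degree < h}.ncard : ℝ) -
        (Nat.card F : ℝ) ^ h| ≤ (Nat.card F : ℝ) ^ ((h : ℝ) - δ * N) :=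
  Pool.Agent.MP_2033ac_nt.SI.main

end Pool.Agent.Results.MP_2033ac_nt.ShortIntervals
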